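import Pool.Agent.N922.PQ.Stm2

/-!
# The normal form of elements of the cubic field with square norm (PV/NF2)

By helper907, for project PV of helper922.
-/

set_option autoImplicit false
set_option linter.all false

open Polynomial
open scoped Classical

namespace Pool.Agent.N907.PV

open Pool.Agent.N922.PQ

section

variable {L : Type} [Field L] [NumberField L] {a b : ℤ} {θ : L}

/-- The norm form. -/
def dn (a b : ℤ) (v : Fin 3 → ℤ) : ℤ :=
  v 0 * ((v 0 - a * v 2) * (v 0 - a * v 2) - (-b * v 2 - a * v 1) * v 1)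
    - (-b * v 2) * (v 1 * (v 0 - a * v 2) - (-b * v 2 - a * v 1) * v 2)
    + (-b * v 1) * (v 1 * v 1 - (v 0 - a * v 2) * v 2)

/-- The product in coordinates. -/
def mul3 (a b : ℤ) (v w : Fin 3 → ℤ) : Fin 3 → ℤ :=
  ![v 0 * w 0 - b * (v 1 * w 2 + v 2 * w 1),
    v 0 * w 1 + v 1 * w 0 - a * (v 1 * w 2 + v 2 * w 1) - b * (v 2 * w 2),
    v 0 * w 2 + v 1 * w 1 + v 2 * w 0 - a * (v 2 * w 2)]

theorem crd_mul (h : IsCub a b θ) {v w : Fin 3 → ℤ} {x y : L} (hx : Crd θ v x) (hy : Crd θ w y) :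
    Crd θ (mul3 a b v w) (x * y) := by
  unfold Crd at *
  rw [hx, hy]
  simp only [mul3, Matrix.cons_val_zero, Matrix.cons_val_one, Matrix.cons_val]
  push_cast
  linear_combination ((v 1 : L) * w 2 + v 2 * w 1 + v 2 * w 2 * θ) * h.root

theorem repr_crd (h : IsCub a b θ) {v : Fin 3 → ℤ} {x : L} (hv : Crd θ v x) (i : Fin 3) :
    h.basis.repr x i = ((v i : ℤ) : ℚ) := by
  have e : x = ∑ j, ((v j : ℤ) : ℚ) • h.basis j := by
    rw [hv]
    simp only [Fin.sum_univ_three, h.basis_apply, vec, Matrix.cons_val_zero, Matrix.cons_val_one,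
      Matrix.cons_val, Rat.smul_def, mul_one]
    push_cast
    ring
  rw [e, Module.Basis.repr_sum_self]

theorem norm_crd (h : IsCub a b θ) {v : Fin 3 → ℤ} {x : L} (hv : Crd θ v x) :
    Algebra.norm ℚ x = ((dn a b v : ℤ) : ℚ) := by
  have ht : Crd θ ![0, 1, 0] θ := by simp [Crd]
  have h1 := crd_mul h hv ht
  have h2 := crd_mul h h1 ht
  rw [Algebra.norm_eq_matrix_det h.basis, Matrix.det_fin_three]
  simp only [Algebra.leftMulMatrix_eq_repr_mul, h.basis_apply, vec, Matrix.cons_val_zero,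
    Matrix.cons_val_one, Matrix.cons_val, mul_one]
  have e2 : x * θ ^ 2 = x * θ * θ := by ring
  rw [e2]
  simp only [repr_crd h hv, repr_crd h h1, repr_crd h h2, mul3, Matrix.cons_val_zero,
    Matrix.cons_val_one, Matrix.cons_val]
  unfold dn
  push_cast
  ring

/-- the product modulo two -/
def m2 (v w : Fin 3 → ZMod 2) : Fin 3 → ZMod 2 :=
  ![v 0 * w 0 - (v 1 * w 2 + v 2 * w 1),
    v 0 * w 1 + v 1 * w 0 - (v 1 * w 2 + v 2 * w 1) - (v 2 * w 2),
    v 0 * w 2 + v 1 * w 1 + v 2 * w 0 - (v 2 * w 2)]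

/-- reduction modulo two -/
def red (v : Fin 3 → ℤ) : Fin 3 → ZMod 2 := fun i => (v i : ZMod 2)

theorem odd_cast {a : ℤ} (ha : Odd a) : (a : ZMod 2) = 1 := by
  obtain ⟨k, rfl⟩ := ha
  push_cast
  have : (2 : ZMod 2) = 0 := rfl
  rw [this]
  ring

theorem red_mul3 (ha : Odd a) (hb : Odd b) (v w : Fin 3 → ℤ) :
    red (mul3 a b v w) = m2 (red v) (red w) := by
  have h1 := odd_cast ha
  have h2 := odd_cast hb
  funext i
  fin_cases i
  · show (((v 0 * w 0 - b * (v 1 * w 2 + v 2 * w 1) : ℤ)) : ZMod 2) = _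
    push_cast
    rw [h2, one_mul]
    rfl
  · show (((v 0 * w 1 + v 1 * w 0 - a * (v 1 * w 2 + v 2 * w 1) - b * (v 2 * w 2) : ℤ)) :
      ZMod 2) = _
    push_cast
    rw [h1, h2, one_mul, one_mul]
    rfl
  · show (((v 0 * w 2 + v 1 * w 1 + v 2 * w 0 - a * (v 2 * w 2) : ℤ)) : ZMod 2) = _
    push_cast
    rw [h1, one_mul]
    rfl

theorem m2_seven : ∀ v : Fin 3 → ZMod 2, v ≠ 0 →
    m2 (m2 (m2 (m2 v v) v) (m2 (m2 v v) v)) v = ![1, 0, 0] := by
  decide

/-- the norm modulo two -/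
def dn2 (v : Fin 3 → ZMod 2) : ZMod 2 :=
  v 0 * ((v 0 - v 2) * (v 0 - v 2) - (- v 2 - v 1) * v 1)
    - (- v 2) * (v 1 * (v 0 - v 2) - (- v 2 - v 1) * v 2)
    + (- v 1) * (v 1 * v 1 - (v 0 - v 2) * v 2)

theorem dn2_ne : ∀ v : Fin 3 → ZMod 2, v ≠ 0 → dn2 v = 1 := by
  decide

theorem dn_odd (ha : Odd a) (hb : Odd b) (v : Fin 3 → ℤ) (hv : red v ≠ 0) : Odd (dn a b v) := by
  have h1 := odd_cast ha
  have h2 := odd_cast hb
  have h3 : ((dn a b v : ℤ) : ZMod 2) = dn2 (red v) := by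
    unfold dn dn2 red
    push_cast
    rw [h1, h2]
    ring
  rw [dn2_ne _ hv] at h3
  rw [← Int.not_even_iff_odd]
  intro h4
  have h5 : ((dn a b v : ℤ) : ZMod 2) = 0 := by
    rw [ZMod.intCast_zmod_eq_zero_iff_dvd]
    exact_mod_cast h4.two_dvd
  rw [h5] at h3
  exact absurd h3 (by decide)

theorem odd_sq_mod {z : ℤ} (h : Odd z) : z ^ 2 % 8 = 1 := by
  obtain ⟨k, rfl⟩ := h
  obtain ⟨m, hm⟩ := Int.even_mul_succ_self k
  have : (2 * k + 1) ^ 2 = 8 * m + 1 := by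
    linear_combination 4 * hm
  omega

theorem not_isSq_eight {d : ℤ} (hd : Odd d) : ¬ IsSquare (8 * d) := by
  rintro ⟨z, hz⟩
  have h1 : Even z := by
    have : Even (z * z) := by
      rw [← hz]
      exact ⟨4 * d, by ring⟩
    rcases Int.even_mul.1 this with h | h <;> exact h
  obtain ⟨y, rfl⟩ := h1
  have h2 : 2 * d = y * y := by linarith
  have h3 : Even y := by
    have : Even (y * y) := by
      rw [← h2]
      exact ⟨d, by ring⟩
    rcases Int.even_mul.1 this with h | h <;> exact h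
  obtain ⟨x, rfl⟩ := h3
  have h4 : d = 2 * (x * x) := by linarith
  rw [h4, ← Int.not_even_iff_odd] at hd
  exact hd ⟨x * x, by ring⟩

theorem half {v : Fin 3 → ℤ} (hv : red v = 0) : ∃ w : Fin 3 → ℤ, v = fun i => 2 * w i := by
  have h : ∀ i, ∃ w : ℤ, v i = 2 * w := by
    intro i
    have h1 : ((v i : ℤ) : ZMod 2) = 0 := congrFun hv i
    rw [ZMod.intCast_zmod_eq_zero_iff_dvd] at h1
    obtain ⟨w, hw⟩ := h1
    exact ⟨w, by exact_mod_cast hw⟩
  choose w hw using h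
  exact ⟨w, funext hw⟩

theorem crd_half {v : Fin 3 → ℤ} {x : L} (hx : Crd θ (fun i => 2 * v i) x) : Crd θ v (x / 2) := by
  unfold Crd at *
  rw [hx]
  push_cast
  field_simp

/-- the size -/
def sz (v : Fin 3 → ℤ) : ℕ := (v 0).natAbs + (v 1).natAbs + (v 2).natAbs

theorem norm_ratCast (h : IsCub a b θ) (q : ℚ) (x : L) :
    Algebra.norm ℚ ((q : L) * x) = q ^ 3 * Algebra.norm ℚ x := by
  rw [map_mul]
  congr 1
  have := Algebra.norm_algebraMap (R := ℚ) (S := L) q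
  rw [h.rank] at this
  simpa using this

theorem isSq_mul_sq {q r : ℚ} (hr : r ≠ 0) (h : IsSquare (q * r ^ 2)) : IsSquare q := by
  obtain ⟨y, hy⟩ := h
  refine ⟨y / r, ?_⟩
  field_simp
  linear_combination hy

theorem red_step (h : IsCub a b θ) (ha : Odd a) (hb : Odd b) : ∀ (n : ℕ) (v : Fin 3 → ℤ) (x : L),
    sz v ≤ n → Crd θ v x → x ≠ 0 → IsSquare (Algebra.norm ℚ x) →
    ∃ (c x' : L) (v' : Fin 3 → ℤ), c ≠ 0 ∧ x = c ^ 2 * x' ∧ Crd θ v' x' ∧ red v' ≠ 0 := by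
  intro n
  induction n with
  | zero =>
    intro v x hs hx hx0 _
    exfalso
    apply hx0
    have h0 : v 0 = 0 ∧ v 1 = 0 ∧ v 2 = 0 := by
      unfold sz at hs
      omega
    rw [hx, h0.1, h0.2.1, h0.2.2]
    simp
  | succ n ih =>
    intro v x hs hx hx0 hsq
    by_cases h1 : red v = 0
    swap
    · exact ⟨1, x, v, one_ne_zero, by ring, hx, h1⟩
    obtain ⟨w, rfl⟩ := half h1
    have hy := crd_half hx
    have hw0 : ∃ i, w i ≠ 0 := by
      by_contra hcon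
      push Not at hcon
      apply hx0
      rw [hx]
      simp [hcon]
    by_cases h2 : red w = 0
    · obtain ⟨u, rfl⟩ := half h2
      have hz := crd_half hy
      have hne : x / 2 / 2 ≠ 0 := by
        simpa using hx0
      have e : x = 2 ^ 2 * (x / 2 / 2) := by
        ring
      have hsq' : IsSquare (Algebra.norm ℚ (x / 2 / 2)) := by
        have e2 : x = (((4 : ℚ)) : L) * (x / 2 / 2) := by
          push_cast
          ring
        rw [e2, norm_ratCast h] at hsq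
        refine isSq_mul_sq (r := 8) (by norm_num) ?_
        convert hsq using 1
        ring
      have hsz : sz u ≤ n := by
        simp only [sz] at *
        obtain ⟨i, hi⟩ := hw0
        have : ¬ ((u 0) = 0 ∧ u 1 = 0 ∧ u 2 = 0) := by
          rintro ⟨h3, h4, h5⟩
          fin_cases i
          · exact hi (by show 2 * u 0 = 0; omega)
          · exact hi (by show 2 * u 1 = 0; omega)
          · exact hi (by show 2 * u 2 = 0; omega)
        omega
      obtain ⟨c, x', v', hc, hxx, hx', hv'⟩ := ih u _ hsz hz hne hsq'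
      refine ⟨2 * c, x', v', mul_ne_zero two_ne_zero hc, ?_, hx', hv'⟩
      rw [e, hxx]
      ring
    · exfalso
      have h3 := dn_odd ha hb w h2
      have e2 : x = (((2 : ℚ)) : L) * (x / 2) := by
        push_cast
        ring
      rw [e2, norm_ratCast h, norm_crd h hy] at hsq
      refine not_isSq_eight h3 ?_
      have h4 : IsSquare (((8 * dn a b w : ℤ)) : ℚ) := by
        convert hsq using 1
        push_cast
        ring
      exact Rat.isSquare_intCast_iff.1 h4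

theorem exists_crd (h : IsCub a b θ) (x : L) : ∃ (m : ℚ) (v : Fin 3 → ℤ), m ≠ 0 ∧
    Crd θ v ((m : L) ^ 2 * x) := by
  obtain ⟨r, s, t, rfl⟩ := h.gen x
  have hr := Rat.mul_den_eq_num r
  have hs := Rat.mul_den_eq_num s
  have ht := Rat.mul_den_eq_num t
  have hr' : (r : L) * (r.den : L) = (r.num : L) := by exact_mod_cast congrArg (fun q : ℚ => (q : L)) hr
  have hs' : (s : L) * (s.den : L) = (s.num : L) := by exact_mod_cast congrArg (fun q : ℚ => (q : L)) hs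
  have ht' : (t : L) * (t.den : L) = (t.num : L) := by exact_mod_cast congrArg (fun q : ℚ => (q : L)) ht
  refine ⟨(r.den * s.den * t.den : ℕ),
    ![r.num * (r.den * (s.den * t.den) ^ 2), s.num * (s.den * (r.den * t.den) ^ 2),
      t.num * (t.den * (r.den * s.den) ^ 2)], ?_, ?_⟩
  · have h1 := r.den_nz
    have h2 := s.den_nz
    have h3 := t.den_nz
    positivity
  · unfold Crd
    simp only [Matrix.cons_val_zero, Matrix.cons_val_one, Matrix.cons_val]
    push_cast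
    rw [← hr', ← hs', ← ht']
    ring

/-- PV/NF2 -/
theorem t_NF2 : S_NF2 := by
  intro L _ _ a b θ h ha hb α hα hsq
  obtain ⟨m, v, hm, hv⟩ := exists_crd h α
  have hmL : (m : L) ≠ 0 := by exact_mod_cast hm
  have hsq1 : IsSquare (Algebra.norm ℚ ((m : L) ^ 2 * α)) := by
    rw [map_mul, map_pow]
    exact (IsSquare.sq _).mul hsq
  obtain ⟨c, u, w, hc, hcu, hw, hwr⟩ := red_step h ha hb _ v _ le_rfl hv
    (mul_ne_zero (pow_ne_zero _ hmL) hα) hsq1
  have hu0 : u ≠ 0 := by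
    rintro rfl
    rw [mul_zero] at hcu
    exact mul_ne_zero (pow_ne_zero _ hmL) hα hcu
  have hsq2 : IsSquare (Algebra.norm ℚ u) := by
    rw [hcu, map_mul, map_pow] at hsq1
    refine isSq_mul_sq (r := Algebra.norm ℚ c) ?_ ?_
    · rwa [Algebra.norm_ne_zero_iff]
    · rwa [mul_comm]
  -- the seventh power
  have hw2 := crd_mul h hw hw
  have hw3 := crd_mul h hw2 hw
  have hw6 := crd_mul h hw3 hw3
  have hw7 := crd_mul h hw6 hw
  obtain ⟨z, hz⟩ : ∃ z : Fin 3 → ℤ, z = mul3 a b (mul3 a b (mul3 a b (mul3 a b w w) w)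
    (mul3 a b (mul3 a b w w) w)) w := ⟨_, rfl⟩
  rw [← hz] at hw7
  have hred : red z = ![1, 0, 0] := by
    rw [hz]
    simp only [red_mul3 ha hb]
    exact m2_seven _ hwr
  have e7 : u * u * u * (u * u * u) * u = u ^ 7 := by ring
  rw [e7] at hw7
  have hsq7 : IsSquare (((dn a b z : ℤ)) : ℚ) := by
    rw [← norm_crd h hw7, map_pow]
    exact hsq2.pow 7
  have hsqz : IsSquare (dn a b z) := Rat.isSquare_intCast_iff.1 hsq7
  have hodd : Odd (dn a b z) := by
    refine dn_odd ha hb z ?_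
    rw [hred]
    decide
  have hmod : dn a b z % 8 = 1 := by
    obtain ⟨y, hy⟩ := hsqz
    have hyo : Odd y := by
      rw [hy] at hodd
      exact (Int.odd_mul.1 hodd).1
    rw [hy, ← pow_two]
    exact odd_sq_mod hyo
  have z0 : ∃ γ : ℤ, z 0 = 1 + 2 * γ := by
    have h1 : ((z 0 : ℤ) : ZMod 2) = 1 := congrFun hred 0
    have h2 : (((z 0 - 1 : ℤ)) : ZMod 2) = 0 := by
      push_cast
      rw [h1, sub_self]
    rw [ZMod.intCast_zmod_eq_zero_iff_dvd] at h2
    obtain ⟨k, hk⟩ := h2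
    exact ⟨k, by push_cast at hk; linarith⟩
  have z1 : ∃ γ : ℤ, z 1 = 2 * γ := by
    have h1 : ((z 1 : ℤ) : ZMod 2) = 0 := congrFun hred 1
    rw [ZMod.intCast_zmod_eq_zero_iff_dvd] at h1
    obtain ⟨k, hk⟩ := h1
    exact ⟨k, by exact_mod_cast hk⟩
  have z2 : ∃ γ : ℤ, z 2 = 2 * γ := by
    have h1 : ((z 2 : ℤ) : ZMod 2) = 0 := congrFun hred 2
    rw [ZMod.intCast_zmod_eq_zero_iff_dvd] at h1
    obtain ⟨k, hk⟩ := h1
    exact ⟨k, by exact_mod_cast hk⟩
  obtain ⟨γ, hγ⟩ := z0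
  obtain ⟨g₁, hg₁⟩ := z1
  obtain ⟨g₂, hg₂⟩ := z2
  obtain ⟨k, rfl⟩ := ha
  obtain ⟨l, rfl⟩ := hb
  obtain ⟨N, hN⟩ : ∃ N : ℤ, dn (2 * k + 1) (2 * l + 1) z = 1 + 8 * N :=
    ⟨dn (2 * k + 1) (2 * l + 1) z / 8, by omega⟩
  have hγe : ∃ δ, γ = 2 * δ := by
    unfold dn at hN
    rw [hγ, hg₁, hg₂] at hN
    ring_nf at hN
    exact ⟨γ / 2, by omega⟩
  obtain ⟨δ, rfl⟩ := hγe
  obtain ⟨t₁, ht₁⟩ := Int.even_mul_pred_self g₁
  obtain ⟨t₂, ht₂⟩ := Int.even_mul_pred_self g₂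
  have hr : ∃ r : ℤ, δ = g₁ * (1 + g₂) + 2 * r := by
    have e1 : g₁ ^ 2 = g₁ + 2 * t₁ := by linarith
    have e2 : g₂ ^ 2 = g₂ + 2 * t₂ := by linarith
    unfold dn at hN
    rw [hγ, hg₁, hg₂] at hN
    ring_nf at hN
    have h0 : g₂ * g₁ = g₁ * g₂ := mul_comm _ _
    have h2 : (δ + g₁ + g₁ * g₂) % 2 = 0 := by omega
    refine ⟨(δ - g₁ - g₁ * g₂) / 2, ?_⟩
    have h3 : g₁ * (1 + g₂) = g₁ + g₁ * g₂ := by ring
    rw [h3]
    omega
  obtain ⟨r, hr⟩ := hr
  refine ⟨c / ((m : L) * u ^ 3), g₁, g₂, r, 0, 0, ?_, ?_, ?_, ?_, ?_⟩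
  · exact div_ne_zero hc (mul_ne_zero hmL (pow_ne_zero _ hu0))
  · simp
  · simp
  · simp
  · have h7 : u ^ 7 = 1 + 4 * (δ : L) + 2 * (g₁ : L) * θ + 2 * (g₂ : L) * θ ^ 2 := by
      rw [hw7, hγ, hg₁, hg₂]
      push_cast
      ring
    have e : aeval θ (pol ℚ g₁ g₂ ((g₁ * (1 + g₂) : ℤ) + 2 * (r : ℚ)) 0 0) = u ^ 7 := by
      rw [h7, hr, pol]
      simp only [map_add, map_mul, map_pow, map_one, aeval_X, aeval_C, map_zero, map_ofNat]
      push_cast
      simp only [eq_ratCast, Rat.cast_add, Rat.cast_mul, Rat.cast_intCast, Rat.cast_one,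
        Rat.cast_ofNat]
      ring
    rw [e]
    have e2 : α = c ^ 2 * u / (m : L) ^ 2 := by
      rw [← hcu]
      field_simp
    rw [e2]
    field_simp

end

end Pool.Agent.N907.PV
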